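import Pool.Agent.W844.GP.Defs2
import Pool.Agent.W414.GP.PosA

/-!
# Project GP part 2 (helper844): the positive part in mean (helper701)
-/

set_option autoImplicit false

open Finset MeasureTheory ProbabilityTheory Filter Topology
open scoped ENNReal

namespace Pool.Agent.W701.GQ

open Pool.Agent.W844.GP
open Pool.Agent.W414.GP
open Pool.Agent.W844.VG (V stp nm)

variable {d : ℕ}

theorem list_tsum (g : ℕ → V d → ℝ≥0∞) (l : List (V d)) :
    (l.map (fun z => ∑' k, g k z)).sum = ∑' k, (l.map (g k)).sum := by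
  induction l with
  | nil => simp
  | cons x l ih =>
    simp only [List.map_cons, List.sum_cons]
    rw [ih, ENNReal.tsum_add]

theorem list_mul (c : ℝ≥0∞) (g : V d → ℝ≥0∞) (l : List (V d)) :
    (l.map (fun z => c * g z)).sum = c * (l.map g).sum := by
  induction l with
  | nil => simp
  | cons x l ih =>
    simp only [List.map_cons, List.sum_cons]
    rw [ih, mul_add]

theorem list_mono {f g : V d → ℝ≥0∞} (h : ∀ z, f z ≤ g z) (l : List (V d)) :
    (l.map f).sum ≤ (l.map g).sum := by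
  induction l with
  | nil => simp
  | cons x l ih =>
    simp only [List.map_cons, List.sum_cons]
    exact add_le_add (h x) ih

open scoped Classical in
/-- the indicator -/
noncomputable def ind (s : ℝ) (w : V d → ℝ) (z : V d) : ℝ≥0∞ := if s < w z then 1 else 0

theorem le_SupP (f : V d → ℝ≥0∞) (n : ℕ) (l : List (V d)) (h : l.length = n ∧ IsP (0 :: l)) :
    (l.map f).sum ≤ SupP f n :=
  le_iSup (fun l : {l : List (V d) // l.length = n ∧ IsP (0 :: l)} => (l.1.map f).sum) ⟨l, h⟩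

theorem SupP_le (w : V d → ℝ) (k0 : ℕ) (T : ℝ) (hT : 2 ^ k0 ≤ T) (n : ℕ) :
    SupP (fun z : V d => ENNReal.ofReal (w z - T)) n ≤
      ∑' k : ℕ, ENNReal.ofReal ((2 : ℝ) ^ (k + k0)) * SupP (ind ((2 : ℝ) ^ (k + k0)) w) n := by
  unfold SupP
  refine iSup_le fun l => ?_
  have h1 : ∀ z, ENNReal.ofReal (w z - T) ≤
      ∑' k : ℕ, ENNReal.ofReal ((2 : ℝ) ^ (k + k0)) * ind ((2 : ℝ) ^ (k + k0)) w z := by
    intro z
    obtain ⟨j, hj⟩ : ∃ j : ℕ, w z ≤ 2 ^ j := by
      obtain ⟨j, hj⟩ := pow_unbounded_of_one_lt (w z) (one_lt_two (α := ℝ))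
      exact ⟨j, hj.le⟩
    have h2 := level k0 (w z) j hj
    have h3 : ENNReal.ofReal (w z - T) ≤ ENNReal.ofReal (max (w z - 2 ^ k0) 0) := by
      apply ENNReal.ofReal_le_ofReal
      exact le_trans (by linarith) (le_max_left _ _)
    refine h3.trans ((ENNReal.ofReal_le_ofReal h2).trans ?_)
    rw [ENNReal.ofReal_sum_of_nonneg (fun k _ => by split_ifs <;> positivity)]
    have h4 : ∀ k : ℕ, ENNReal.ofReal (if (2 : ℝ) ^ k < w z then (2 : ℝ) ^ k else 0)
        = ENNReal.ofReal ((2 : ℝ) ^ k) * ind ((2 : ℝ) ^ k) w z := by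
      intro k
      unfold ind
      by_cases h : (2 : ℝ) ^ k < w z
      · simp [h]
      · simp [h]
    simp_rw [h4]
    rw [Finset.sum_Ico_eq_sum_range]
    have h5 : ∑ k ∈ Finset.range (j - k0), ENNReal.ofReal ((2 : ℝ) ^ (k0 + k)) * ind ((2 : ℝ) ^ (k0 + k)) w z
        = ∑ k ∈ Finset.range (j - k0), ENNReal.ofReal ((2 : ℝ) ^ (k + k0)) * ind ((2 : ℝ) ^ (k + k0)) w z := by
      refine Finset.sum_congr rfl fun k _ => ?_
      rw [add_comm]
    rw [h5]
    exact ENNReal.sum_le_tsum _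
  refine (list_mono h1 l.1).trans ?_
  rw [list_tsum]
  refine ENNReal.tsum_le_tsum fun k => ?_
  rw [list_mul]
  gcongr
  exact le_SupP _ n l.1 l.2

theorem meas_ind (s : ℝ) (z : V d) : Measurable (fun w : V d → ℝ => ind s w z) := by
  unfold ind
  exact Measurable.ite (measurableSet_lt measurable_const (measurable_pi_apply z)) measurable_const
    measurable_const

theorem meas_SupP (s : ℝ) (n : ℕ) : Measurable (fun w : V d → ℝ => SupP (ind s w) n) := by
  unfold SupP
  refine Measurable.iSup fun l => ?_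
  have : ∀ l : List (V d), Measurable (fun w : V d → ℝ => (l.map (ind s w)).sum) := by
    intro l
    induction l with
    | nil => simp
    | cons x l ih =>
      simp only [List.map_cons, List.sum_cons]
      exact (meas_ind s x).add ih
  exact this l.1

theorem pose : S_GE → S_POSE := by
  intro hGE d hd ν _ α hα hM ε hε
  obtain ⟨C, hC, hmain⟩ := hGE d hd
  change ∫⁻ x, ENNReal.ofReal (gm d α x) ∂ν < ⊤ at hM
  have hsum := summable_levels hd hα hM
  set f : ℕ → ℝ := fun k => (2:ℝ) ^ k * ν.real (Set.Ioi ((2:ℝ) ^ k)) ^ ((1 : ℝ) / d) with hf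
  have hf0 : ∀ k, 0 ≤ f k := fun k => by rw [hf]; positivity
  obtain ⟨k0, hk0⟩ : ∃ k0 : ℕ, C * ∑' k, f (k + k0) < ε := by
    have h1 := (_root_.tendsto_sum_nat_add f).const_mul C
    rw [mul_zero] at h1
    exact (h1.eventually (gt_mem_nhds hε)).exists
  refine ⟨2 ^ k0, by positivity, fun T hT n hn => ?_⟩
  have hsum' : Summable (fun k => f (k + k0)) := (summable_nat_add_iff k0).mpr hsum
  calc ∫⁻ w, SupP (fun z : V d => ENNReal.ofReal (w z - T)) n ∂law ν d
      ≤ ∫⁻ w, ∑' k : ℕ, ENNReal.ofReal ((2 : ℝ) ^ (k + k0)) * SupP (ind ((2 : ℝ) ^ (k + k0)) w) n ∂law ν d :=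
        lintegral_mono fun w => SupP_le w k0 T hT n
    _ = ∑' k : ℕ, ∫⁻ w, ENNReal.ofReal ((2 : ℝ) ^ (k + k0)) * SupP (ind ((2 : ℝ) ^ (k + k0)) w) n ∂law ν d :=
        lintegral_tsum fun k => ((meas_SupP _ n).const_mul _).aemeasurable
    _ = ∑' k : ℕ, ENNReal.ofReal ((2 : ℝ) ^ (k + k0)) * ∫⁻ w, SupP (ind ((2 : ℝ) ^ (k + k0)) w) n ∂law ν d := by
        refine tsum_congr fun k => ?_
        rw [lintegral_const_mul _ (meas_SupP _ n)]
    _ ≤ ∑' k : ℕ, ENNReal.ofReal (C * n * f (k + k0)) := by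
        refine ENNReal.tsum_le_tsum fun k => ?_
        have h1 := hmain ν ((2 : ℝ) ^ (k + k0)) n hn
        have h2 : ∫⁻ w, SupP (ind ((2 : ℝ) ^ (k + k0)) w) n ∂law ν d ≤
            ENNReal.ofReal (C * (n * ν.real (Set.Ioi ((2 : ℝ) ^ (k + k0))) ^ ((1 : ℝ) / d))) := by
          refine le_trans (le_of_eq ?_) h1
          unfold ind
          rfl
        refine (mul_le_mul_right h2 _).trans ?_
        rw [← ENNReal.ofReal_mul (by positivity)]
        apply ENNReal.ofReal_le_ofReal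
        apply le_of_eq
        rw [hf]
        ring
    _ = ENNReal.ofReal (∑' k : ℕ, C * n * f (k + k0)) := by
        rw [ENNReal.ofReal_tsum_of_nonneg (fun k => by have := hf0 (k + k0); positivity)
          (hsum'.mul_left _)]
    _ ≤ ENNReal.ofReal (ε * n) := by
        apply ENNReal.ofReal_le_ofReal
        rw [tsum_mul_left]
        have hn0 : (0 : ℝ) ≤ n := Nat.cast_nonneg n
        calc C * n * ∑' k, f (k + k0) = (C * ∑' k, f (k + k0)) * n := by ring
          _ ≤ ε * n := by gcongr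

end Pool.Agent.W701.GQ
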